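import Pool.Agent.Helper2.CF.Defs

/-!
The simple root vectors generate (block CF-3 of the project CF for MP_b8862a_ag).
-/

open Module LieModule LieAlgebra LieAlgebra.IsKilling

namespace CF

open MTP MTP.MF

section lie

variable {V : Type*} [AddCommGroup V] [Module ℂ V] [FiniteDimensional ℂ V]
  {L : Type*} [LieRing L] [LieAlgebra ℂ L] [FiniteDimensional ℂ L] [IsKilling ℂ L]
  {H : LieSubalgebra ℂ L} [H.IsCartanSubalgebra] [LieRingModule L V] [LieModule ℂ L V]
  {b : (rootSystem H).Base} {es fs : H.root → L} {S : V →ₗ[ℂ] V →ₗ⋆[ℂ] ℂ} {θ : L → L}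

theorem exists_gen (b : (rootSystem H).Base) : ∃ es fs : H.root → L, Gen b es fs := by
  have hex : ∀ j : H.root, ∃ e f : L, IsSl2Triple ((coroot j.1 : H) : L) e f ∧
      e ∈ rootSpace H j.1 ∧ f ∈ rootSpace H (-j.1) := by
    intro j
    obtain ⟨h, e, f, ht, he, hf⟩ := exists_isSl2Triple_of_weight_isNonZero
      (H.isNonZero_coe_root j)
    have := ht.h_eq_coroot (H.isNonZero_coe_root j) he hf
    rw [this] at ht
    exact ⟨e, f, ht, he, hf⟩
  choose es fs ht he hf using hex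
  exact ⟨es, fs, ⟨fun i _ => ht i, fun i _ => he i, fun i _ => hf i⟩⟩

omit [IsKilling ℂ L] in
/-- The action of the raising operator between one-dimensional root spaces is not zero. -/
private lemma ne56 {h e f y z : L} (t : IsSl2Triple h e f) {χ β : H → ℂ}
    (he : e ∈ rootSpace H χ) (hf : f ∈ rootSpace H (-χ)) (hline : ∀ x ∈ rootSpace H β, ∃ c : ℂ, x = c • y)
    (hy0 : y ≠ 0) (hz : z ∈ rootSpace H (χ + β)) (hz0 : z ≠ 0) {m : ℂ} (hm : ⁅h, y⁆ = m • y)
    (hm' : ⁅h, z⁆ = (m + 2) • z) (hnil : _root_.IsNilpotent (toEnd ℂ L L e)) : ⁅e, y⁆ ≠ 0 := by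
  intro hey
  have Py : t.HasPrimitiveVectorWith y m := ⟨hy0, hm, hey⟩
  obtain ⟨k, hk⟩ := Py.exists_nat
  have hex : ∃ n : ℕ, (toEnd ℂ L L e ^ n) z = 0 := by
    obtain ⟨n, hn⟩ := hnil
    exact ⟨n, by rw [hn]; rfl⟩
  obtain ⟨n, hn1, hn2⟩ := Nat.exists_not_and_succ_of_not_zero_of_exists
    (p := fun n => (toEnd ℂ L L e ^ n) z = 0) (by simpa using hz0) hex
  have Pw : t.HasPrimitiveVectorWith ((toEnd ℂ L L e ^ n) z) (m + 2 + 2 * n) :=
    ⟨hn1, t.lie_h_pow_toEnd_e hm' n, by rw [IsSl2Triple.lie_e_pow_toEnd_e]; exact hn2⟩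
  have hN : m + 2 + 2 * (n : ℂ) = ((k + 2 + 2 * n : ℕ) : ℂ) := by
    rw [hk]; push_cast; ring
  have h1 := Pw.pow_toEnd_f_ne_zero_of_eq_nat hN (i := n + 1) (by omega)
  have h1' := Pw.pow_toEnd_f_ne_zero_of_eq_nat hN (i := n) (by omega)
  have h2 : (toEnd ℂ L L f ^ (n + 1)) ((toEnd ℂ L L e ^ n) z) ∈ rootSpace H β := by
    have h3 := toEnd_pow_apply_mem hf (toEnd_pow_apply_mem he hz n) (n + 1)
    have e1 : (n + 1) • (-χ) + (n • χ + (χ + β)) = β := by
      rw [smul_neg, add_smul, one_smul]; abel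
    rwa [e1] at h3
  obtain ⟨c, hc⟩ := hline _ h2
  have h4 := Pw.lie_e_pow_succ_toEnd_f n
  rw [hc, lie_smul, hey, smul_zero] at h4
  rcases smul_eq_zero.mp h4.symm with h5 | h5
  · have h6 : ((n : ℂ) + 1) * (m + 2 + 2 * n - n) = (((n + 1) * (k + 2 + n) : ℕ) : ℂ) := by
      rw [hk]; push_cast; ring
    rw [h6] at h5
    have h7 : (n + 1) * (k + 2 + n) = 0 := by exact_mod_cast h5
    have h8 : 0 < (n + 1) * (k + 2 + n) := by positivity
    omega
  · exact h1' h5

private lemma line56 {β : H → ℂ} (χ : Weight ℂ H L) (hχ : (χ : H → ℂ) = β) (hβ : χ.IsNonZero) {x y : L}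
    (hy : y ∈ rootSpace H β) (hy0 : y ≠ 0) (hx : x ∈ rootSpace H β) : ∃ c : ℂ, x = c • y := by
  subst hχ
  have h6 : finrank ℂ (rootSpace H χ) = 1 := finrank_rootSpace_eq_one χ hβ
  have h7 : finrank ℂ (rootSpace H χ).toSubmodule = 1 := h6
  have h8 : (⟨y, hy⟩ : (rootSpace H χ).toSubmodule) ≠ 0 :=
    fun h => hy0 (congrArg Subtype.val h)
  obtain ⟨c, hc⟩ := (finrank_eq_one_iff_of_nonzero' _ h8).mp h7 ⟨x, hx⟩
  exact ⟨c, (congrArg Subtype.val hc).symm⟩

/-- CF-3a: the bracket with a simple root vector is onto the next root space. -/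
theorem lie_root_ne (G : Gen b es fs) {i : H.root} (hi : i ∈ b.support) {α β : H.root}
    (h : (rootSystem H).root α = (rootSystem H).root i + (rootSystem H).root β) {y : L}
    (hy : y ∈ rootSpace H β.1) (hy0 : y ≠ 0) : ⁅es i, y⁆ ∈ rootSpace H α.1 ∧ ⁅es i, y⁆ ≠ 0 := by
  have hfun : (i.1 : H → ℂ) + (β.1 : H → ℂ) = (α.1 : H → ℂ) := by
    ext x
    exact (congrArg (fun g : Dual ℂ H => g x) h).symm
  refine ⟨?_, ?_⟩
  · rw [← hfun]
    exact lie_mem_genWeightSpace_of_mem_genWeightSpace (G.me i hi) hy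
  · obtain ⟨z, hz, hz0⟩ := α.1.exists_ne_zero
    have hm' := lie_root hz (coroot i.1)
    have hval : α.1 (coroot i.1) = β.1 (coroot i.1) + 2 := by
      have := congrFun hfun (coroot i.1)
      rw [Pi.add_apply, root_apply_coroot (H.isNonZero_coe_root i)] at this
      rw [← this, add_comm]
    rw [hval] at hm'
    refine ne56 (G.tr i hi) (G.me i hi) (G.mf i hi)
      (fun x hx => line56 β.1 rfl (H.isNonZero_coe_root β) hy hy0 hx) hy0 (z := z) ?_ hz0
      (lie_root hy (coroot i.1)) hm' ?_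
    · rw [hfun]; exact hz
    · refine isNilpotent_toEnd_of_mem_rootSpace (M := L) H ?_ (G.me i hi)
      intro h0
      exact H.isNonZero_coe_root i h0

private lemma neg56 (α : H.root) : ((-α.1 : Weight ℂ H L) : H → ℂ) = -(α.1 : H → ℂ) :=
  Weight.coe_neg

private lemma nz56 (α : H.root) : (-α.1 : Weight ℂ H L).IsNonZero :=
  Weight.IsNonZero.neg (H.isNonZero_coe_root α)

/-- The same for negative roots. -/
private lemma lie_neg_ne56 (G : Gen b es fs) {i : H.root} (hi : i ∈ b.support) {α β : H.root}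
    (h : (rootSystem H).root α = (rootSystem H).root i + (rootSystem H).root β) {y : L}
    (hy : y ∈ rootSpace H (-β.1)) (hy0 : y ≠ 0) :
    ⁅fs i, y⁆ ∈ rootSpace H (-α.1) ∧ ⁅fs i, y⁆ ≠ 0 := by
  have hfun0 : (i.1 : H → ℂ) + (β.1 : H → ℂ) = (α.1 : H → ℂ) := by
    ext x
    exact (congrArg (fun g : Dual ℂ H => g x) h).symm
  have hfun : -(i.1 : H → ℂ) + -(β.1 : H → ℂ) = -(α.1 : H → ℂ) := by
    rw [← hfun0, neg_add]
  refine ⟨?_, ?_⟩
  · rw [← hfun]
    exact lie_mem_genWeightSpace_of_mem_genWeightSpace (G.mf i hi) hy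
  · obtain ⟨z, hz, hz0⟩ := (-α.1 : Weight ℂ H L).exists_ne_zero
    have hα : α.1 (coroot i.1) = 2 + β.1 (coroot i.1) := by
      rw [← hfun0, Pi.add_apply, root_apply_coroot (H.isNonZero_coe_root i)]
    have hz2 : ⁅-((coroot i.1 : H) : L), z⁆ = (β.1 (coroot i.1) + 2) • z := by
      have h2 : ⁅((coroot i.1 : H) : L), z⁆ = (-α.1 : Weight ℂ H L) (coroot i.1) • z :=
        lie_eq_smul_of_mem_rootSpace hz _
      rw [neg_lie, h2, Weight.coe_neg, Pi.neg_apply, hα, neg_smul, neg_neg, add_comm]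
    rw [← neg56] at hy
    have hy2 : ⁅-((coroot i.1 : H) : L), y⁆ = β.1 (coroot i.1) • y := by
      have h2 : ⁅((coroot i.1 : H) : L), y⁆ = (-β.1 : Weight ℂ H L) (coroot i.1) • y :=
        lie_eq_smul_of_mem_rootSpace hy _
      rw [neg_lie, h2, Weight.coe_neg, Pi.neg_apply, neg_smul, neg_neg]
    refine ne56 (G.tr i hi).symm (G.mf i hi) (f := es i) ?_
      (fun x hx => line56 (-β.1) rfl (nz56 β) hy hy0 hx) hy0 (z := z) ?_ hz0 hy2 hz2 ?_
    · have := G.me i hi
      rw [neg_neg]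
      exact this
    · rw [neg56, hfun, ← neg56]; exact hz
    · have h5 := G.mf i hi
      rw [← neg56] at h5
      refine isNilpotent_toEnd_of_mem_rootSpace (M := L) H ?_ h5
      intro h0
      exact nz56 i h0

/-- CF-3b: the simple root vectors generate. -/
theorem gen_top (G : Gen b es fs) (M : LieSubalgebra ℂ L) (he : ∀ i ∈ b.support, es i ∈ M)
    (hf : ∀ i ∈ b.support, fs i ∈ M) : M = ⊤ := by
  classical
  have hcor : ∀ i ∈ b.support, ((coroot i.1 : H) : L) ∈ M := by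
    intro i hi
    rw [← (G.tr i hi).lie_e_f]
    exact M.lie_mem (he i hi) (hf i hi)
  have hH : ∀ x : H, (x : L) ∈ M := by
    intro x
    have h1 : x ∈ Submodule.span ℂ ((rootSystem H).coroot '' b.support) := by
      rw [b.span_coroot_support, RootPairing.corootSpan,
        RootPairing.IsRootSystem.span_coroot_eq_top]
      trivial
    induction h1 using Submodule.span_induction with
    | mem u hu =>
      obtain ⟨i, hi, rfl⟩ := hu
      exact hcor i hi
    | zero => exact M.zero_mem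
    | add u v _ _ hu hv => exact M.add_mem hu hv
    | smul c u _ hu => exact M.smul_mem c hu
  have hpos : ∀ α : H.root, b.IsPos α →
      (∀ x ∈ rootSpace H α.1, x ∈ M) ∧ (∀ x ∈ rootSpace H (-α.1), x ∈ M) := by
    intro α hα
    refine hα.induction_on_add
      (p := fun α : H.root => (∀ x ∈ rootSpace H α.1, x ∈ M) ∧ (∀ x ∈ rootSpace H (-α.1), x ∈ M))
      ?_ ?_
    · intro i hi
      refine ⟨fun x hx => ?_, fun x hx => ?_⟩
      · obtain ⟨c, hc⟩ := line56 i.1 rfl (H.isNonZero_coe_root i) (G.me i hi) (G.tr i hi).e_ne_zero hx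
        rw [hc]
        exact M.smul_mem c (he i hi)
      · obtain ⟨c, hc⟩ := line56 (-i.1) (neg56 i) (nz56 i) (G.mf i hi)
          (G.tr i hi).f_ne_zero hx
        rw [hc]
        exact M.smul_mem c (hf i hi)
    · rintro i j k hk ⟨h1, h2⟩ hj
      rw [add_comm] at hk
      refine ⟨fun x hx => ?_, fun x hx => ?_⟩
      · obtain ⟨y, hy, hy0⟩ := i.1.exists_ne_zero
        obtain ⟨h3, h4⟩ := lie_root_ne G hj hk hy hy0
        obtain ⟨c, hc⟩ := line56 k.1 rfl (H.isNonZero_coe_root k) h3 h4 hx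
        rw [hc]
        exact M.smul_mem c (M.lie_mem (he j hj) (h1 y hy))
      · obtain ⟨y, hy, hy0⟩ := (-i.1 : Weight ℂ H L).exists_ne_zero
        rw [neg56] at hy
        obtain ⟨h3, h4⟩ := lie_neg_ne56 G hj hk hy hy0
        obtain ⟨c, hc⟩ := line56 (-k.1) (neg56 k) (nz56 k) h3 h4 hx
        rw [hc]
        exact M.smul_mem c (M.lie_mem (hf j hj) (h2 y hy))
  rw [eq_top_iff]
  intro x _
  refine root_induction (U := M.toSubmodule) (H := H) ?_ x
  intro α z hz
  change z ∈ M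
  by_cases hα : α.IsZero
  · have hzH : z ∈ H := by
      rw [hα.eq] at hz
      rwa [rootSpace_zero_eq, LieSubalgebra.mem_toLieSubmodule] at hz
    exact hH ⟨z, hzH⟩
  · have hα' : α ∈ H.root := by simpa [LieSubalgebra.root] using hα
    by_cases hp : b.IsPos ⟨α, hα'⟩
    · exact (hpos _ hp).1 z hz
    · have hk := (rootSystem H).root_reflectionPerm ⟨α, hα'⟩ ⟨α, hα'⟩
      have hht : b.height ((rootSystem H).reflectionPerm ⟨α, hα'⟩ ⟨α, hα'⟩) =
          - b.height ⟨α, hα'⟩ := b.height_reflectionPerm_self ⟨α, hα'⟩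
      rw [RootPairing.reflection_apply_self] at hk
      generalize (rootSystem H).reflectionPerm ⟨α, hα'⟩ ⟨α, hα'⟩ = k at hk hht
      have hp' : b.IsPos k := by
        have h4 : ¬ 0 < b.height ⟨α, hα'⟩ := hp
        have h5 := b.height_ne_zero ⟨α, hα'⟩
        have : 0 < b.height k := by omega
        exact this
      apply (hpos _ hp').2 z
      have e1 : -(k.1 : H → ℂ) = (α : H → ℂ) := by
        ext x
        have h7 : k.1 x = -(α x) := congrArg (fun g : Dual ℂ H => g x) hk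
        rw [Pi.neg_apply, h7, neg_neg]
      rw [e1]
      exact hz

end lie

end CF
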